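import Pool.Agent.Work.MP_8bb7de_al.P2.TwoMain

set_option autoImplicit false

/-!
MP_8bb7de_al, question Q1, in full: if `G` is a finite group with trivial third dimension subgroup
in characteristic `p`, then `G` is determined among all groups by the `F`-algebra `F[G]`, for
every prime `p` and every field `F` of characteristic `p`.
-/

namespace Pool.Agent.Results.MP_8bb7de_al.Main

open Pool.Agent.Work.MP_8bb7de_al

/-- Let `p` be a prime and `G` a finite group whose third dimension subgroup (computed over some
field `F₀` of characteristic `p`) is trivial. Then for every field `F` of characteristic `p` and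
every group `H`, an isomorphism of `F`-algebras between `F[G]` and `F[H]` forces `G` and `H` to be
isomorphic. -/
theorem result (p : ℕ) [hprime : Fact p.Prime] (F₀ : Type*) [Field F₀] [CharP F₀ p]
    (G : Type*) [Group G] [Finite G] (hD : dimensionSubgroup F₀ G 3 = {1})
    (F : Type*) [Field F] [CharP F p] (H : Type*) [Group H]
    (e : Nonempty (MonoidAlgebra F G ≃ₐ[F] MonoidAlgebra F H)) : Nonempty (G ≃* H) := by
  have hD' : ∀ g ∈ dimensionSubgroup F₀ G 3, g = 1 := by
    intro g hg
    rw [hD] at hg
    exact hg
  obtain ⟨e⟩ := e
  by_cases hp : p = 2
  · subst hp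
    exact P2.two_main hD' e
  · exact exponent_main (p := p) (classTwo_of_dim hD') (exponent_of_dim p hp hD') e

end Pool.Agent.Results.MP_8bb7de_al.Main
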